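import Pool.Agent.Helper17.R8.Sheet

/-! Row DDIV: divided differences. -/

set_option autoImplicit false

namespace Pool.Helper17.R8

open Polynomial

namespace DDIV

theorem dvd_of_mul (q : ℤ) (hq : Prime q) (m : ℕ) (x y : ℤ) (h : q ^ (m + 1) ∣ x * y)
    (hx : ¬ q ^ 2 ∣ x) : q ^ m ∣ y := by
  by_cases h1 : q ∣ x
  · obtain ⟨x', rfl⟩ := h1
    have h2 : ¬ q ∣ x' := by
      intro h3
      apply hx
      rw [sq]
      exact mul_dvd_mul_left q h3
    have h3 : q ^ m ∣ x' * y := by
      rw [pow_succ', mul_assoc] at h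
      exact (mul_dvd_mul_iff_left hq.ne_zero).1 h
    exact hq.pow_dvd_of_dvd_mul_left m h2 h3
  · exact (pow_dvd_pow q (Nat.le_succ m)).trans (hq.pow_dvd_of_dvd_mul_left (m + 1) h1 h)

theorem ind (q : ℤ) (hq : Prime q) : ∀ (n : ℕ) (P : ℤ[X]), P.natDegree ≤ n →
    ∀ t : Fin (n + 1) → ℤ, (∀ i, q ^ (n + 1) ∣ P.eval (t i)) →
    (∀ i j, i ≠ j → ¬ q ^ 2 ∣ t i - t j) → q ∣ P.coeff n := by
  intro n
  induction n with
  | zero =>
    intro P hP t h _
    have h1 := h 0
    rw [eq_C_of_natDegree_le_zero hP, eval_C] at h1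
    simpa using h1
  | succ n ih =>
    intro P hP t h hne
    set a : ℤ := t 0 with ha
    set R : ℤ[X] := P /ₘ (X - C a) with hR
    have e1 : C (P.eval a) + (X - C a) * R = P := by
      rw [← modByMonic_X_sub_C_eq_C_eval]
      exact modByMonic_add_div P (X - C a)
    have hRd : R.natDegree ≤ n := by
      rw [hR, natDegree_divByMonic _ (monic_X_sub_C a), natDegree_X_sub_C]
      omega
    have e2 : P.coeff (n + 1) = R.coeff n := by
      conv_lhs => rw [← e1]
      have h2 : R.coeff (n + 1) = 0 := coeff_eq_zero_of_natDegree_lt (by omega)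
      rw [coeff_add, sub_mul, coeff_sub, coeff_X_mul, coeff_C_mul, h2, coeff_C_succ]
      ring
    rw [e2]
    refine ih R hRd (fun i => t i.succ) (fun i => ?_) (fun i j hij => ?_)
    · have e3 : P.eval (t i.succ) = P.eval a + (t i.succ - a) * R.eval (t i.succ) := by
        conv_lhs => rw [← e1]
        simp
      have h3 : q ^ (n + 1 + 1) ∣ (t i.succ - a) * R.eval (t i.succ) := by
        have h4 := dvd_sub (h i.succ) (h 0)
        rw [e3, ← ha] at h4
        have e5 : P.eval a + (t i.succ - a) * R.eval (t i.succ) - P.eval a =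
            (t i.succ - a) * R.eval (t i.succ) := by ring
        rwa [e5] at h4
      exact dvd_of_mul q hq (n + 1) _ _ h3 (hne _ _ (Fin.succ_ne_zero i))
    · exact hne _ _ fun h => hij (Fin.succ_injective _ h)

end DDIV

theorem st_DDIV : ST_DDIV := by
  intro P q hq hP hl t ht
  by_contra hcon
  push Not at hcon
  apply hl
  have h1 := DDIV.ind (q : ℤ) (Nat.prime_iff_prime_int.1 hq) 5 P hP.le t ht hcon
  rwa [leadingCoeff, hP]

end Pool.Helper17.R8
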